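import Pool.Agent.Q179.LPM.Families

open Filter Pool.Agent.Q179.LPM

namespace Pool.Agent.Results.MP_f22ace_co.CornerCutFixedSize

/-- For every `k ≥ 1` the conductance of `Λ(d,k)` tends to `0` as `d → ∞`. -/
theorem result (k : ℕ) (hk : 1 ≤ k) (ε : ℝ) (hε : 0 < ε) :
    ∀ᶠ d : ℕ in atTop, SparseVolCut (Lam d k) ε := by
  obtain ⟨M, hM⟩ := exists_nat_gt (2 / ε)
  have hM0 : 1 ≤ M := by
    have : (0 : ℝ) < M := lt_trans (by positivity) hM
    exact_mod_cast this
  filter_upwards [conductance_fixed_size k hk M hM0] with d hd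
  apply hd.mono
  rw [div_lt_iff₀ hε] at hM
  rw [div_le_iff₀ (by exact_mod_cast hM0)]
  linarith

end Pool.Agent.Results.MP_f22ace_co.CornerCutFixedSize
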