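import Pool.Agent.Q179.LPM.Families

open Filter Pool.Agent.Q179.LPM

namespace Pool.Agent.Results.MP_f22ace_co.LeftmostCut

/-- For `d = 2` the graphs `Λ(2,k)` have arbitrarily sparse cuts in the sense of `h`, with the
rate `C k^{-1/3} log k` for some `k` in every interval `(K, 2K]`; and for every `d ≥ 2` the
conductance of `Λ(d,k)` tends to `0` as `k → ∞`. -/
theorem result :
    (∀ ε : ℝ, 0 < ε → ∃ᶠ k : ℕ in atTop, SparseCut (Lam 2 k) ε) ∧
    (∃ C : ℝ, ∀ᶠ K : ℕ in atTop, ∃ k : ℕ, K < k ∧ k ≤ 2 * K ∧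
      SparseCut (Lam 2 k) (C * Real.log k / (k : ℝ) ^ (1 / 3 : ℝ))) ∧
    (∀ d : ℕ, 2 ≤ d → ∀ ε : ℝ, 0 < ε → ∀ᶠ k : ℕ in atTop, SparseVolCut (Lam d k) ε) := by
  -- decay of the error term
  have hdecay : Tendsto (fun x : ℝ => Real.log x / x ^ (1 / 3 : ℝ)) atTop (nhds 0) :=
    (isLittleO_log_rpow_atTop (by norm_num : (0 : ℝ) < 1 / 3)).tendsto_div_nhds_zero
  have hdecayN : Tendsto (fun k : ℕ => Real.log k / (k : ℝ) ^ (1 / 3 : ℝ)) atTop (nhds 0) :=
    hdecay.comp tendsto_natCast_atTop_atTop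
  have hdecay2 : Tendsto (fun K : ℕ => Real.log ((2 * K : ℕ) : ℝ)
      / ((2 * K : ℕ) : ℝ) ^ (1 / 3 : ℝ)) atTop (nhds 0) := by
    apply hdecayN.comp
    exact tendsto_id.const_mul_atTop' (by norm_num : 0 < 2)
  -- the rate
  have hrate : ∀ᶠ K : ℕ in atTop, ∃ k : ℕ, K < k ∧ k ≤ 2 * K ∧
      SparseCut (Lam 2 k) (2176 * Real.log k / (k : ℝ) ^ (1 / 3 : ℝ)) := by
    have hev := hdecay2.eventually (gt_mem_nhds (show (0 : ℝ) < 1 / 1088 by norm_num))
    filter_upwards [hev, eventually_ge_atTop 2] with K hK hK2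
    obtain ⟨k, hk1, hk2, hk3⟩ := exists_slow K hK2
    have hKpos : (0 : ℝ) < K := by exact_mod_cast (by omega : 0 < K)
    set y : ℝ := ((2 * K : ℕ) : ℝ) with hy
    have hy2 : y = 2 * K := by rw [hy]; push_cast; ring
    have hypos : 0 < y := by rw [hy2]; linarith
    have hkpos : (0 : ℝ) < k := by exact_mod_cast (by omega : 0 < k)
    have hky : (k : ℝ) ≤ y := by rw [hy]; exact_mod_cast hk2
    -- rewrite the constant
    have hconst : 136 * y ^ (2 / 3 : ℝ) * Real.log y / K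
        = 272 * (Real.log y / y ^ (1 / 3 : ℝ)) := by
      have e1 : y ^ (2 / 3 : ℝ) * y ^ (1 / 3 : ℝ) = y := by
        rw [← Real.rpow_add hypos]
        norm_num
      have hp : 0 < y ^ (1 / 3 : ℝ) := Real.rpow_pos_of_pos hypos _
      have e2 : y ^ (2 / 3 : ℝ) = y / y ^ (1 / 3 : ℝ) := by
        rw [eq_div_iff hp.ne', e1]
      rw [e2, hy2]
      field_simp
      ring
    rw [hconst] at hk3
    set δ : ℝ := 272 * (Real.log y / y ^ (1 / 3 : ℝ)) with hδ
    have hδ4 : 4 * δ ≤ 1 := by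
      rw [hδ]
      linarith
    set N := (F k k).card with hN
    set N' := (F ((k : ℤ) - 1) (k - 1)).card with hN'
    have hNN : N' ≤ N := Finset.card_le_card (F_mono (by omega) (by omega))
    have hNpos : 0 < N := Finset.card_pos.2 (F_nonempty (by exact_mod_cast (by omega : 1 ≤ k)))
    have hNpos' : (0 : ℝ) < N := by exact_mod_cast hNpos
    have hcast : ((N - N' : ℕ) : ℝ) = (N : ℝ) - N' := Nat.cast_sub hNN
    have hD : 4 * (N - N') ≤ N := by
      have : (4 : ℝ) * ((N - N' : ℕ) : ℝ) ≤ N := by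
        rw [hcast]
        nlinarith
      exact_mod_cast this
    obtain ⟨S, hS1, hS2, hS3, hS4⟩ := exists_cut k (by omega) hD
    refine ⟨k, hk1, hk2, S, hS1, hS2, ?_⟩
    have h1 : (cut (Lam 2 k) S : ℝ) ≤ δ * N := by
      calc (cut (Lam 2 k) S : ℝ) ≤ ((N - N' : ℕ) : ℝ) := by exact_mod_cast hS4
        _ = (N : ℝ) - N' := hcast
        _ ≤ δ * N := hk3
    have h2 : (N : ℝ) ≤ 4 * S.card := by exact_mod_cast hS3
    have hlogy : 0 ≤ Real.log y := Real.log_nonneg (by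
      rw [hy2]
      have : (2 : ℝ) ≤ K := by exact_mod_cast hK2
      linarith)
    have hδ0 : 0 ≤ δ := by
      rw [hδ]
      have : 0 < y ^ (1 / 3 : ℝ) := Real.rpow_pos_of_pos hypos _
      positivity
    have h3 : δ ≤ 544 * (Real.log k / (k : ℝ) ^ (1 / 3 : ℝ)) := by
      have hk2' : (2 : ℝ) ≤ k := by exact_mod_cast (by omega : 2 ≤ k)
      have hlog : Real.log y ≤ 2 * Real.log k := by
        have e3 : 2 * Real.log (k : ℝ) = Real.log ((k : ℝ) ^ 2) := by
          rw [Real.log_pow]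
          norm_num
        rw [e3]
        apply Real.log_le_log hypos
        have h5 : (K : ℝ) ≤ k := by exact_mod_cast hk1.le
        rw [hy2]
        nlinarith
      have hpow : (k : ℝ) ^ (1 / 3 : ℝ) ≤ y ^ (1 / 3 : ℝ) :=
        Real.rpow_le_rpow hkpos.le hky (by norm_num)
      have hpk : 0 < (k : ℝ) ^ (1 / 3 : ℝ) := Real.rpow_pos_of_pos hkpos _
      calc δ = 272 * (Real.log y / y ^ (1 / 3 : ℝ)) := hδ
        _ ≤ 272 * (Real.log y / (k : ℝ) ^ (1 / 3 : ℝ)) := by gcongr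
        _ ≤ 272 * ((2 * Real.log k) / (k : ℝ) ^ (1 / 3 : ℝ)) := by gcongr
        _ = 544 * (Real.log k / (k : ℝ) ^ (1 / 3 : ℝ)) := by ring
    calc (cut (Lam 2 k) S : ℝ) ≤ δ * N := h1
      _ ≤ δ * (4 * S.card) := by gcongr
      _ ≤ (544 * (Real.log k / (k : ℝ) ^ (1 / 3 : ℝ))) * (4 * S.card) := by gcongr
      _ = 2176 * Real.log k / (k : ℝ) ^ (1 / 3 : ℝ) * S.card := by ring
  refine ⟨?_, ⟨2176, hrate⟩, ?_⟩
  · intro ε hε
    rw [frequently_atTop]
    intro a
    have hev := (hdecayN.const_mul 2176).eventually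
      (gt_mem_nhds (show (2176 : ℝ) * 0 < ε by simpa using hε))
    obtain ⟨K0, hK0⟩ := (hrate.and ((eventually_ge_atTop a).and
      (eventually_atTop.2 ⟨_, (eventually_atTop.1 hev).choose_spec⟩))).exists_forall_of_atTop
    obtain ⟨⟨k, hk1, hk2, hk3⟩, ha, -⟩ := hK0 K0 le_rfl
    have hk4 := (hK0 k hk1.le).2.2
    refine ⟨k, ha.trans hk1.le, hk3.mono ?_⟩
    have : 2176 * Real.log k / (k : ℝ) ^ (1 / 3 : ℝ)
        = 2176 * (Real.log k / (k : ℝ) ^ (1 / 3 : ℝ)) := by ring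
    rw [this]
    exact hk4.le
  · intro d hd ε hε
    obtain ⟨M, hM⟩ := exists_nat_gt (2 / ε)
    have hM0 : 1 ≤ M := by
      have : (0 : ℝ) < M := lt_trans (by positivity) hM
      exact_mod_cast this
    filter_upwards [conductance_fixed_dim d hd M hM0] with k hk
    apply hk.mono
    rw [div_lt_iff₀ hε] at hM
    rw [div_le_iff₀ (by exact_mod_cast hM0)]
    linarith

end Pool.Agent.Results.MP_f22ace_co.LeftmostCut
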